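import Pool.Agent.H887.BK.D2
import Pool.Graph.R_pool_sql_team_seeded_3997aac3.Q121.ST.DF

/-!
# Project BK of helper887, parts YsM, Yh and Ode: naturality
-/

set_option autoImplicit false
set_option linter.unusedSectionVars false
set_option linter.unusedVariables false

namespace Pool.Agent.H860.BK

open MvPolynomial Pool.Agent.H425 Pool.Agent.H887.BK

variable {ι : Type} [Fintype ι] [DecidableEq ι] {L L' : Type} [CommRing L] [CommRing L']

theorem map_form (φ : L →+* L') (d : ℕ) (c : (ι →₀ ℕ) → L) :
    map φ (form d c) = form d (fun s => φ (c s)) := by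
  rw [form, form, map_sum]
  exact Finset.sum_congr rfl fun s _ => map_monomial _ _ _

theorem map_mix (φ : L →+* L') (d : ℕ) (c : (ι →₀ ℕ) → L) (s : ι →₀ ℕ) :
    φ (mix d c s) = mix d (fun s => φ (c s)) s := by
  unfold mix
  split_ifs
  · exact map_zero φ
  · rfl

theorem map_fam (φ : L →+* L') (d : ℕ) (a : ι → L) (c : (ι →₀ ℕ) → L) (τ : L) (s : ι →₀ ℕ) :
    φ (fam d a c τ s) = fam d (fun i => φ (a i)) (fun s => φ (c s)) (φ τ) s := by
  unfold fam
  rw [map_add, map_sum]
  congr 1
  · refine Finset.sum_congr rfl fun i _ => ?_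
    split_ifs
    · rfl
    · exact map_zero φ
  · split_ifs
    · exact map_zero φ
    · exact map_mul φ _ _

theorem fam_eq (d : ℕ) (a : ι → L) (c : (ι →₀ ℕ) → L) (τ : L) (s : ι →₀ ℕ) :
    fam d a c τ s = fam d a c 0 s + τ * mix d c s := by
  unfold fam mix
  split_ifs
  · simp
  · simp

theorem rd0_monomial (e : ℕ) (dinv : L) (b : ι → L) (w : ι →₀ ℕ) (x : L) (u : ι → Fin e) :
    rd0 e dinv b (monomial w x) u =
      x * (if ∀ i, w i % (e + 1) = (u i : ℕ) then r0c (e + 1) dinv b w else 0) := by
  have h1 : monomial w x = x • (basisMonomials ι L) w := by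
    rw [coe_basisMonomials, smul_monomial, smul_eq_mul, mul_one]
  rw [h1, map_smul, rd0, Module.Basis.constr_basis]
  rfl

theorem map_r0c (φ : L →+* L') (d : ℕ) (dinv : L) (b : ι → L) (w : ι →₀ ℕ) :
    φ (r0c d dinv b w) = r0c d (φ dinv) (fun i => φ (b i)) w := by
  unfold r0c
  rw [map_prod]
  refine Finset.prod_congr rfl fun i _ => ?_
  rw [map_prod]
  refine Finset.prod_congr rfl fun k _ => ?_
  rw [map_neg, map_mul, map_mul, map_natCast]

theorem map_rd0 (φ : L →+* L') (e : ℕ) (dinv : L) (b : ι → L) (P : MvPolynomial ι L)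
    (u : ι → Fin e) :
    φ (rd0 e dinv b P u) = rd0 e (φ dinv) (fun i => φ (b i)) (map φ P) u := by
  induction P using MvPolynomial.induction_on' with
  | monomial w x =>
    rw [map_monomial, rd0_monomial, rd0_monomial, map_mul]
    congr 1
    split_ifs
    · exact map_r0c φ _ _ _ _
    · exact map_zero φ
  | add P Q hP hQ =>
    rw [map_add, map_add, map_add, Pi.add_apply, Pi.add_apply, map_add, hP, hQ]

theorem rat_map [Algebra ℚ L] [Algebra ℚ L'] (φ : L →+* L') (x : ℚ) :
    φ (algebraMap ℚ L x) = algebraMap ℚ L' x := by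
  have h : φ.comp (algebraMap ℚ L) = algebraMap ℚ L' := RingHom.ext_rat _ _
  rw [← h]
  rfl

/-- part YsM -/
theorem h_YsM : S_YsM := by
  intro ι _ _ L L' _ _ _ _ φ e b c r u
  refine PowerSeries.ext fun m => ?_
  rw [PowerSeries.coeff_map, Ys, Ys, PowerSeries.coeff_mk, PowerSeries.coeff_mk, map_mul, rat_map,
    map_rd0, rat_map, map_mul, map_pow, map_form, map_monomial, map_one]
  have h : (fun s => φ (mix (e + 1) c s)) = mix (e + 1) (fun s => φ (c s)) :=
    funext fun s => map_mix φ _ _ _
  rw [h]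

/-- the entries of `Yh`, explicitly -/
theorem Yh_eq {R : Type} [CommRing R] (e M : ℕ) (dinv : R) (b : ι → R) (c : (ι →₀ ℕ) → R)
    (τ : PowerSeries R) (r u : ι → Fin e) :
    Yh e M (PowerSeries.C dinv) (fun i => PowerSeries.C (b i)) τ
        (form (e + 1) (mix (e + 1) (fun s => PowerSeries.C (c s)))) r u =
      ∑ m ∈ Finset.range M, ((M.factorial / m.factorial : ℕ) : PowerSeries R) * τ ^ m *
        PowerSeries.C (rd0 e dinv b (form (e + 1) (mix (e + 1) c) ^ m * monomial (emb u) 1) r) := by
  have h0 : (fun s => PowerSeries.C (mix (e + 1) c s)) =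
      mix (e + 1) (fun s => PowerSeries.C (c s)) :=
    funext fun s => map_mix (PowerSeries.C (R := R)) (e + 1) c s
  rw [Yh, Eh, Finset.sum_mul, map_sum, Finset.sum_apply]
  refine Finset.sum_congr rfl fun m _ => ?_
  have e1 : map (PowerSeries.C (R := R)) (form (e + 1) (mix (e + 1) c) ^ m * monomial (emb u) 1) =
      form (e + 1) (mix (e + 1) (fun s => PowerSeries.C (c s))) ^ m * monomial (emb u) 1 := by
    rw [map_mul, map_pow, map_form, map_monomial, map_one, h0]
  rw [map_rd0, e1, mul_assoc (C _), ← smul_eq_C_mul, map_smul, Pi.smul_apply, smul_eq_mul]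

/-- part Yh -/
theorem h_Yh : S_Yh := by
  intro ι _ _ R F _ _ _ φ e M p hp dinv b c r u hM hd
  -- the coefficients
  set v : ℕ → F := fun m => rd0 e (algebraMap ℚ F (1 / ((e + 1 : ℕ) : ℚ))) (fun i => φ (b i))
    (form (e + 1) (mix (e + 1) (fun s => φ (c s))) ^ m * monomial (emb u) 1) r with hv
  have hdinv : φ dinv = algebraMap ℚ F (1 / ((e + 1 : ℕ) : ℚ)) := by
    have h1 : φ dinv * ((e + 1 : ℕ) : F) = 1 := by
      rw [← map_natCast φ, ← map_mul, hd, map_one]
    have h2 : algebraMap ℚ F (1 / ((e + 1 : ℕ) : ℚ)) * ((e + 1 : ℕ) : F) = 1 := by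
      rw [← map_natCast (algebraMap ℚ F), ← map_mul, one_div_mul_cancel, map_one]
      exact Nat.cast_ne_zero.2 (Nat.succ_ne_zero e)
    have h3 : ((e + 1 : ℕ) : F) ≠ 0 := right_ne_zero_of_mul_eq_one h1
    exact mul_right_cancel₀ h3 (h1.trans h2.symm)
  have hYh : ∀ τ : PowerSeries R, PowerSeries.map φ (Yh e M (PowerSeries.C dinv)
        (fun i => PowerSeries.C (b i)) τ
        (form (e + 1) (mix (e + 1) (fun s => PowerSeries.C (c s)))) r u) =
      ∑ m ∈ Finset.range M, ((M.factorial / m.factorial : ℕ) : PowerSeries F) *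
        PowerSeries.map φ τ ^ m * PowerSeries.C (v m) := by
    intro τ
    rw [Yh_eq, map_sum]
    refine Finset.sum_congr rfl fun m _ => ?_
    have h0 : (fun s => φ (mix (e + 1) c s)) = mix (e + 1) (fun s => φ (c s)) :=
      funext fun s => map_mix φ (e + 1) c s
    rw [map_mul, map_mul, map_natCast, map_pow, PowerSeries.map_C, map_rd0, map_mul, map_pow,
      map_form, map_monomial, map_one, h0, hdinv]
  have h1 : ∃ z : PowerSeries F, ∑ m ∈ Finset.range M,
      ((M.factorial / m.factorial : ℕ) : PowerSeries F) * PowerSeries.X ^ m * PowerSeries.C (v m) =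
      (M.factorial : PowerSeries F) * Ys e (fun i => φ (b i)) (fun s => φ (c s)) r u +
        PowerSeries.X ^ M * z := by
    suffices h : (PowerSeries.X : PowerSeries F) ^ M ∣ (∑ m ∈ Finset.range M,
        ((M.factorial / m.factorial : ℕ) : PowerSeries F) * PowerSeries.X ^ m *
          PowerSeries.C (v m)) -
        (M.factorial : PowerSeries F) * Ys e (fun i => φ (b i)) (fun s => φ (c s)) r u by
      obtain ⟨z, hz⟩ := h
      exact ⟨z, by rw [← hz]; ring⟩
    rw [PowerSeries.X_pow_dvd_iff]
    intro n hn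
    have e1 : ∀ m ∈ Finset.range M, PowerSeries.coeff n
        (((M.factorial / m.factorial : ℕ) : PowerSeries F) * PowerSeries.X ^ m *
          PowerSeries.C (v m)) =
        if n = m then ((M.factorial / m.factorial : ℕ) : F) * v m else 0 := by
      intro m _
      rw [PowerSeries.coeff_mul_C, ← map_natCast (PowerSeries.C (R := F)),
        PowerSeries.coeff_C_mul, PowerSeries.coeff_X_pow]
      split_ifs
      · rw [mul_one]
      · rw [mul_zero, zero_mul]
    rw [map_sub, map_sum, Finset.sum_congr rfl e1, Finset.sum_ite_eq, if_pos (Finset.mem_range.2 hn),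
      ← map_natCast (PowerSeries.C (R := F)), PowerSeries.coeff_C_mul, Ys, PowerSeries.coeff_mk]
    change _ * v n - _ * (_ * v n) = 0
    rw [← mul_assoc, ← sub_mul]
    have e2 : ((M.factorial / n.factorial : ℕ) : F) -
        (M.factorial : F) * algebraMap ℚ F (1 / (n.factorial : ℚ)) = 0 := by
      rw [← map_natCast (algebraMap ℚ F), ← map_natCast (algebraMap ℚ F), ← map_mul, ← map_sub,
        Nat.cast_div (Nat.factorial_dvd_factorial hn.le)
          (Nat.cast_ne_zero.2 n.factorial_ne_zero), mul_one_div, sub_self, map_zero]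
    rw [e2, zero_mul]
  refine ⟨?_, ?_⟩
  · obtain ⟨z, hz⟩ := h1
    exact ⟨z, by rw [hYh, PowerSeries.map_X, hz]⟩
  · obtain ⟨z, hz⟩ := h1
    have h2 := congrArg (PowerSeries.expand p hp) hz
    rw [map_sum, map_add, map_mul, map_mul, map_pow, map_natCast, PowerSeries.expand_X] at h2
    obtain ⟨q, rfl⟩ := Nat.exists_eq_succ_of_ne_zero hp
    refine ⟨PowerSeries.X ^ (q * M) * PowerSeries.expand (q + 1) hp z, ?_⟩
    rw [hYh, map_pow, PowerSeries.map_X]
    have e3 : (PowerSeries.X : PowerSeries F) ^ M *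
        (PowerSeries.X ^ (q * M) * PowerSeries.expand (q + 1) hp z) =
        (PowerSeries.X ^ (q + 1)) ^ M * PowerSeries.expand (q + 1) hp z := by
      rw [← pow_mul, ← mul_assoc, ← pow_add]
      congr 2
      ring
    rw [e3, ← h2]
    refine Finset.sum_congr rfl fun m _ => ?_
    rw [map_mul, map_mul, map_natCast, map_pow, PowerSeries.expand_X, PowerSeries.expand_C]

open Pool.Agent.Q267.ST (DFin HasODE)
open Pool.Agent.Q121.ST

section Abs

variable {A : Type} [CommRing A] [IsDomain A]

theorem dfin_sum {I : Type} (s : Finset I) (f : I → PowerSeries A) (h : ∀ i ∈ s, DFin (f i)) :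
    DFin (∑ i ∈ s, f i) := by
  classical
  induction s using Finset.induction_on with
  | empty =>
    rw [Finset.sum_empty, ← Polynomial.coe_zero]
    exact dfPoly A 0
  | insert i s hi ih =>
    rw [Finset.sum_insert hi]
    exact dfAdd A _ _ (h i (Finset.mem_insert_self i s))
      (ih fun j hj => h j (Finset.mem_insert_of_mem hj))

theorem dfin_prod {I : Type} (s : Finset I) (f : I → PowerSeries A) (h : ∀ i ∈ s, DFin (f i)) :
    DFin (∏ i ∈ s, f i) := by
  classical
  induction s using Finset.induction_on with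
  | empty =>
    rw [Finset.prod_empty, ← Polynomial.coe_one]
    exact dfPoly A 1
  | insert i s hi ih =>
    rw [Finset.prod_insert hi]
    exact dfMul A _ _ (h i (Finset.mem_insert_self i s))
      (ih fun j hj => h j (Finset.mem_insert_of_mem hj))

theorem dfin_det {m : Type} [Fintype m] [DecidableEq m] (M : Matrix m m (PowerSeries A))
    (h : ∀ i j, DFin (M i j)) : DFin M.det := by
  rw [Matrix.det_apply']
  refine dfin_sum _ _ fun σ _ => dfMul A _ _ ?_ (dfin_prod _ _ fun i _ => h _ _)
  have h1 : (((Equiv.Perm.sign σ : ℤˣ) : ℤ) : PowerSeries A) =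
      ((((Equiv.Perm.sign σ : ℤˣ) : ℤ) : Polynomial A) : PowerSeries A) := by
    rw [← Polynomial.coeToPowerSeries.ringHom_apply, map_intCast]
  rw [h1]
  exact dfPoly A _

/-- solutions of a linear system of differential equations -/
theorem dfin_of_system {I : Type} [Finite I] (y : I → PowerSeries A)
    (h : ∀ i, ∃ (q : Polynomial A) (c : I → Polynomial A), q ≠ 0 ∧
      ∃ s : Finset I, (q : PowerSeries A) * PowerSeries.derivative (R := A) (y i) =
        ∑ j ∈ s, (c j : PowerSeries A) * y j) (i : I) : DFin (y i) := by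
  rw [dfin_iff]
  have hgen : ∀ x ∈ Set.range y, Sat (Submodule.span (Polynomial A) (Set.range y))
      (PowerSeries.derivative (R := A) x) := by
    rintro _ ⟨k, rfl⟩
    obtain ⟨q, c, hq, s, hs⟩ := h k
    refine ⟨q, hq, ?_⟩
    rw [smul_eq, hs]
    refine Submodule.sum_mem _ fun j _ => ?_
    rw [← smul_eq]
    exact Submodule.smul_mem _ _ (Submodule.subset_span ⟨j, rfl⟩)
  refine ⟨Submodule.span (Polynomial A) (Set.range y), Submodule.fg_span (Set.finite_range y),
    fun n => ?_⟩
  induction n with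
  | zero => exact sat_mem (Submodule.subset_span ⟨i, rfl⟩)
  | succ n ih =>
    rw [Function.iterate_succ_apply']
    exact sat_d hgen ih

end Abs

section Main

variable {ι : Type} [Fintype ι] [DecidableEq ι] {F : Type} [Field F] [Algebra ℚ F]

/-- `P ↦ ∑_m T ^ m / m! rd0 (g ^ m P)_r` -/
noncomputable def Lam0 (e : ℕ) (b : ι → F) (g : MvPolynomial ι F) (r : ι → Fin e) :
    MvPolynomial ι F →ₗ[F] PowerSeries F where
  toFun P := PowerSeries.mk fun m => algebraMap ℚ F (1 / (m.factorial : ℚ)) *
    rd0 e (algebraMap ℚ F (1 / ((e + 1 : ℕ) : ℚ))) b (g ^ m * P) r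
  map_add' P Q := by
    refine PowerSeries.ext fun m => ?_
    rw [map_add, PowerSeries.coeff_mk, PowerSeries.coeff_mk, PowerSeries.coeff_mk, mul_add,
      map_add, Pi.add_apply, mul_add]
  map_smul' x P := by
    refine PowerSeries.ext fun m => ?_
    rw [RingHom.id_apply, map_smul, PowerSeries.coeff_mk, PowerSeries.coeff_mk, mul_smul_comm,
      map_smul, Pi.smul_apply, smul_eq_mul, smul_eq_mul]
    ring

theorem coeff_Lam0 (e : ℕ) (b : ι → F) (g : MvPolynomial ι F) (r : ι → Fin e)
    (P : MvPolynomial ι F) (m : ℕ) :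
    PowerSeries.coeff m (Lam0 e b g r P) = algebraMap ℚ F (1 / (m.factorial : ℚ)) *
      rd0 e (algebraMap ℚ F (1 / ((e + 1 : ℕ) : ℚ))) b (g ^ m * P) r := by
  have h : Lam0 e b g r P = PowerSeries.mk fun m => algebraMap ℚ F (1 / (m.factorial : ℚ)) *
    rd0 e (algebraMap ℚ F (1 / ((e + 1 : ℕ) : ℚ))) b (g ^ m * P) r := rfl
  rw [h, PowerSeries.coeff_mk]

theorem fac_succ (m : ℕ) : algebraMap ℚ F (1 / ((m + 1).factorial : ℚ)) * ((m : F) + 1) =
    algebraMap ℚ F (1 / (m.factorial : ℚ)) := by
  have h1 : ((m : F) + 1) = algebraMap ℚ F ((m : ℚ) + 1) := by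
    rw [map_add, map_natCast, map_one]
  rw [h1, ← map_mul]
  congr 1
  rw [Nat.factorial_succ, Nat.cast_mul]
  have h2 : ((m : ℚ) + 1) ≠ 0 := by positivity
  have h3 : (m.factorial : ℚ) ≠ 0 := Nat.cast_ne_zero.2 m.factorial_ne_zero
  push_cast
  field_simp

theorem d_Lam0 (e : ℕ) (b : ι → F) (g : MvPolynomial ι F) (r : ι → Fin e)
    (P : MvPolynomial ι F) :
    PowerSeries.derivative (R := F) (Lam0 e b g r P) = Lam0 e b g r (g * P) := by
  refine PowerSeries.ext fun m => ?_
  rw [PowerSeries.coeff_derivative, coeff_Lam0, coeff_Lam0, mul_right_comm, fac_succ, pow_succ,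
    mul_assoc]

theorem Lam0_yop (e : ℕ) (b : ι → F) (g H0 : MvPolynomial ι F) (r : ι → Fin e) (i : ι)
    (h0 : ∀ P, rd0 e (algebraMap ℚ F (1 / ((e + 1 : ℕ) : ℚ))) b (yop H0 i P) = 0)
    (P : MvPolynomial ι F) :
    Lam0 e b g r (yop H0 i P) + PowerSeries.X * Lam0 e b g r (pderiv i g * P) = 0 := by
  refine PowerSeries.ext fun m => ?_
  rw [map_add, map_zero]
  cases m with
  | zero =>
    rw [PowerSeries.coeff_zero_X_mul, coeff_Lam0, pow_zero, one_mul, h0, Pi.zero_apply, mul_zero,
      add_zero]
  | succ m =>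
    rw [PowerSeries.coeff_succ_X_mul, coeff_Lam0, coeff_Lam0, ← fac_succ m, mul_assoc, ← mul_add]
    have e1 : g ^ (m + 1) * yop H0 i P + ((m : F) + 1) • (g ^ m * (pderiv i g * P)) =
        yop H0 i (g ^ (m + 1) * P) := by
      rw [yop_apply, yop_apply, Derivation.leibniz, Derivation.leibniz_pow, smul_eq_C_mul,
        Nat.add_sub_cancel, map_add, map_natCast, map_one]
      simp only [smul_eq_mul, nsmul_eq_mul]
      push_cast
      ring
    have e2 : rd0 e (algebraMap ℚ F (1 / ((e + 1 : ℕ) : ℚ))) b (g ^ (m + 1) * yop H0 i P) r +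
        ((m : F) + 1) * rd0 e (algebraMap ℚ F (1 / ((e + 1 : ℕ) : ℚ))) b
          (g ^ m * (pderiv i g * P)) r = 0 := by
      have := congrFun (congrArg (rd0 e (algebraMap ℚ F (1 / ((e + 1 : ℕ) : ℚ))) b) e1) r
      rw [h0, map_add, map_smul, Pi.add_apply, Pi.smul_apply, smul_eq_mul, Pi.zero_apply] at this
      exact this
    rw [e2, mul_zero]

/-- the constants in the fraction field of the power series -/
noncomputable def kap1 (F : Type) [Field F] : F →+* FractionRing (PowerSeries F) :=
  (algebraMap (PowerSeries F) (FractionRing (PowerSeries F))).comp (PowerSeries.C (R := F))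

/-- the extension of `Lam0` to the fraction field of the power series -/
noncomputable def Lam (e : ℕ) (b : ι → F) (g : MvPolynomial ι F) (r : ι → Fin e) :
    MvPolynomial ι (FractionRing (PowerSeries F)) →ₗ[FractionRing (PowerSeries F)]
      FractionRing (PowerSeries F) :=
  (basisMonomials ι (FractionRing (PowerSeries F))).constr (FractionRing (PowerSeries F))
    (fun w => algebraMap (PowerSeries F) _ (Lam0 e b g r (monomial w 1)))

theorem Lam_monomial (e : ℕ) (b : ι → F) (g : MvPolynomial ι F) (r : ι → Fin e) (w : ι →₀ ℕ)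
    (x : FractionRing (PowerSeries F)) :
    Lam e b g r (monomial w x) =
      x * algebraMap (PowerSeries F) _ (Lam0 e b g r (monomial w 1)) := by
  have h1 : monomial w x = x • (basisMonomials ι (FractionRing (PowerSeries F))) w := by
    rw [coe_basisMonomials, smul_monomial, smul_eq_mul, mul_one]
  rw [h1, map_smul, Lam, Module.Basis.constr_basis]
  rfl

theorem Lam_map (e : ℕ) (b : ι → F) (g : MvPolynomial ι F) (r : ι → Fin e)
    (P : MvPolynomial ι F) :
    Lam e b g r (map (kap1 F) P) = algebraMap (PowerSeries F) _ (Lam0 e b g r P) := by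
  induction P using MvPolynomial.induction_on' with
  | monomial w x =>
    have h1 : monomial w x = x • monomial w (1 : F) := by
      rw [smul_monomial, smul_eq_mul, mul_one]
    rw [map_monomial, Lam_monomial, h1, map_smul, PowerSeries.smul_eq_C_mul, map_mul]
    rfl
  | add P Q hP hQ =>
    rw [map_add, map_add, map_add, map_add, hP, hQ]

theorem Lam_yop (e : ℕ) (b : ι → F) (g H0 : MvPolynomial ι F) (r : ι → Fin e) (i : ι)
    (h0 : ∀ P, rd0 e (algebraMap ℚ F (1 / ((e + 1 : ℕ) : ℚ))) b (yop H0 i P) = 0)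
    (H : MvPolynomial ι (FractionRing (PowerSeries F)))
    (hH : H = map (kap1 F) H0 +
      (algebraMap (PowerSeries F) (FractionRing (PowerSeries F)) PowerSeries.X) •
        map (kap1 F) g)
    (Q : MvPolynomial ι (FractionRing (PowerSeries F))) :
    Lam e b g r (yop H i Q) = 0 := by
  have h1 : (Lam e b g r).comp (yop H i) = 0 := by
    refine (basisMonomials ι (FractionRing (PowerSeries F))).ext fun w => ?_
    rw [LinearMap.comp_apply, LinearMap.zero_apply, coe_basisMonomials]
    have e1 : (monomial w (1 : FractionRing (PowerSeries F))) =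
        map (kap1 F) (monomial w (1 : F)) := by rw [map_monomial, map_one (kap1 F)]
    have e2 : yop H i (map (kap1 F) (monomial w (1 : F))) =
        map (kap1 F) (yop H0 i (monomial w 1)) +
          (algebraMap (PowerSeries F) (FractionRing (PowerSeries F)) PowerSeries.X) •
            map (kap1 F) (pderiv i g * monomial w 1) := by
      rw [yop_apply, yop_apply, hH, map_add (pderiv i), Derivation.map_smul, pderiv_map, pderiv_map,
        pderiv_map, map_add (map (kap1 F)), map_mul, map_mul, add_mul, smul_mul_assoc, add_assoc]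
    have e3 : ((monomial w) (1 : FractionRing (PowerSeries F))) =
        (fun s => (monomial s) (1 : FractionRing (PowerSeries F))) w := rfl
    change Lam e b g r (yop H i (monomial w (1 : FractionRing (PowerSeries F)))) = 0
    rw [e1, e2, map_add, map_smul, Lam_map, Lam_map, smul_eq_mul, ← map_mul, ← map_add,
      Lam0_yop e b g H0 r i h0, map_zero]
  exact LinearMap.congr_fun h1 Q

theorem form_isHomogeneous {L : Type} [CommRing L] (d : ℕ) (c : (ι →₀ ℕ) → L) :
    (form d c).IsHomogeneous d := by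
  rw [form]
  refine IsHomogeneous.sum _ _ _ fun s hs => isHomogeneous_monomial _ ?_
  rwa [mem_Sd] at hs

/-- the coefficients of the family over `F[T]` -/
noncomputable def fT (e : ℕ) (b : ι → F) (c : (ι →₀ ℕ) → F) (s : ι →₀ ℕ) : Polynomial F :=
  fam (e + 1) (fun i => Polynomial.C (b i)⁻¹) (fun s => Polynomial.C (c s)) Polynomial.X s

theorem LM_det_ne (hLM0 : S_LM0) (hNat : S_Nat) (e : ℕ) (he : 0 < e) (b : ι → F)
    (c : (ι →₀ ℕ) → F) (hb : ∀ i, b i ≠ 0) (j : ℕ) : (LM (form (e + 1) (fT e b c)) e he j).det ≠ 0 := by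
  have : CharZero F := algebraRat.charZero F
  intro h
  have h1 := (hNat ι (Polynomial F) F (Polynomial.evalRingHom 0) 2 e he (fT e b c)).1 j
  have h2 : (fun s => Polynomial.evalRingHom 0 (fT e b c s)) =
      fam (e + 1) (fun i => (b i)⁻¹) c 0 := by
    funext s
    rw [fT, map_fam]
    congr 1
    · funext i
      exact Polynomial.eval_C
    · funext s
      exact Polynomial.eval_C
    · exact Polynomial.eval_X
  rw [h, map_zero, h2, hLM0 ι F e he _ c j, Matrix.det_diagonal] at h1
  refine absurd h1.symm (Finset.prod_ne_zero_iff.2 fun w _ => Finset.prod_ne_zero_iff.2 fun i _ =>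
    pow_ne_zero _ (mul_ne_zero (Nat.cast_ne_zero.2 (Nat.succ_ne_zero e)) (inv_ne_zero (hb i))))

/-- `F(T)` in the fraction field of the power series -/
noncomputable def psi (F : Type) [Field F] :
    FractionRing (Polynomial F) →+* FractionRing (PowerSeries F) :=
  IsFractionRing.lift (A := Polynomial F) (K := FractionRing (Polynomial F))
    (g := (algebraMap (PowerSeries F) (FractionRing (PowerSeries F))).comp
      (Polynomial.coeToPowerSeries.ringHom (R := F)))
    ((IsFractionRing.injective (PowerSeries F) (FractionRing (PowerSeries F))).comp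
      (Polynomial.coe_injective F))

theorem psi_apply (q : Polynomial F) :
    psi F (algebraMap (Polynomial F) (FractionRing (Polynomial F)) q) =
      algebraMap (PowerSeries F) (FractionRing (PowerSeries F)) (q : PowerSeries F) :=
  IsFractionRing.lift_algebraMap _ _

theorem form_psi (e : ℕ) (b : ι → F) (c : (ι →₀ ℕ) → F) :
    map (psi F) (form (e + 1) (fun s => algebraMap (Polynomial F) (FractionRing (Polynomial F))
      (fT e b c s))) =
    map (kap1 F) (form (e + 1) (fam (e + 1) (fun i => (b i)⁻¹) c 0)) +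
      (algebraMap (PowerSeries F) (FractionRing (PowerSeries F)) PowerSeries.X) •
        map (kap1 F) (form (e + 1) (mix (e + 1) c)) := by
  rw [map_form, map_form, map_form, form, form, form, Finset.smul_sum, ← Finset.sum_add_distrib]
  refine Finset.sum_congr rfl fun s _ => ?_
  rw [smul_monomial, ← map_add (monomial s), psi_apply, fT, fam_eq, smul_eq_mul]
  have h1 : fam (e + 1) (fun i => Polynomial.C (b i)⁻¹) (fun s => Polynomial.C (c s)) 0 s =
      Polynomial.C (fam (e + 1) (fun i => (b i)⁻¹) c 0 s) := by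
    rw [map_fam, map_zero]
  have h2 : mix (e + 1) (fun s => Polynomial.C (c s)) s = Polynomial.C (mix (e + 1) c s) := by
    rw [map_mix]
  rw [h1, h2, Polynomial.coe_add, Polynomial.coe_mul, Polynomial.coe_C, Polynomial.coe_C,
    Polynomial.coe_X, map_add (algebraMap _ _), map_mul (algebraMap _ _)]
  rfl

theorem system (hRd : S_Rd) (hR0 : S_R0) (hLM0 : S_LM0) (hNat : S_Nat) (e : ℕ) (he : 0 < e)
    (b : ι → F) (c : (ι →₀ ℕ) → F) (hb : ∀ i, b i ≠ 0) (r u : ι → Fin e) :
    ∃ (q : Polynomial F) (γ : (ι → Fin e) → Polynomial F), q ≠ 0 ∧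
      (q : PowerSeries F) * PowerSeries.derivative (R := F) (Ys e b c r u) =
        ∑ u', (γ u' : PowerSeries F) * Ys e b c r u' := by
  have : CharZero F := algebraRat.charZero F
  set g := form (e + 1) (mix (e + 1) c) with hg
  -- the coordinates
  set φ := algebraMap (Polynomial F) (FractionRing (Polynomial F)) with hφ
  have hinj : Function.Injective φ :=
    IsFractionRing.injective (Polynomial F) (FractionRing (Polynomial F))
  obtain ⟨D, -, -⟩ := hRd ι (FractionRing (Polynomial F)) e he
    (form (e + 1) (fun s => φ (fT e b c s))) (form_isHomogeneous _ _) (fun j => by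
      have h1 := (hNat ι (Polynomial F) (FractionRing (Polynomial F)) φ 2 e he (fT e b c)).1 j
      rw [← h1]
      exact isUnit_iff_ne_zero.2 fun h => LM_det_ne hLM0 hNat e he b c hb j
        (hinj (h.trans (map_zero φ).symm)))
  -- the decomposition
  obtain ⟨Q, hQ⟩ := D.dec (map (φ.comp Polynomial.C) (g * monomial (emb u) 1))
  set G : (ι → Fin e) → FractionRing (Polynomial F) :=
    D.rd (map (φ.comp Polynomial.C) (g * monomial (emb u) 1)) with hG
  have h1 := congrArg (map (psi F)) hQ
  have hpsi : (psi F).comp (φ.comp Polynomial.C) = kap1 F := by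
    refine RingHom.ext fun x => ?_
    rw [RingHom.comp_apply, RingHom.comp_apply, psi_apply, Polynomial.coe_C]
    rfl
  have hyop : ∀ i, map (psi F) (yop (form (e + 1) (fun s => φ (fT e b c s))) i (Q i)) =
      yop (map (psi F) (form (e + 1) (fun s => φ (fT e b c s)))) i (map (psi F) (Q i)) := by
    intro i
    rw [yop_apply, yop_apply, map_add (map (psi F)), map_mul, pderiv_map, pderiv_map]
  rw [map_map, hpsi, map_add (map (psi F)), map_sum, map_sum] at h1
  have h2 := congrArg (Lam e b g r) h1
  have h0 : ∀ i P, rd0 e (algebraMap ℚ F (1 / ((e + 1 : ℕ) : ℚ))) b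
      (yop (form (e + 1) (fam (e + 1) (fun i => (b i)⁻¹) c 0)) i P) = 0 := by
    refine (hR0 ι F e (algebraMap ℚ F (1 / ((e + 1 : ℕ) : ℚ))) (fun i => (b i)⁻¹) b c he ?_
      (fun i => inv_mul_cancel₀ (hb i))).1
    rw [← map_natCast (algebraMap ℚ F), ← map_mul, one_div_mul_cancel, map_one]
    exact Nat.cast_ne_zero.2 (Nat.succ_ne_zero e)
  have h3 : ∀ i, Lam e b g r (map (psi F) (yop (form (e + 1) (fun s => φ (fT e b c s))) i (Q i))) =
      0 := by
    intro i
    rw [hyop]
    exact Lam_yop e b g _ r i (h0 i) _ (form_psi e b c) _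
  have hY : ∀ u' : ι → Fin e, Ys e b c r u' = Lam0 e b g r (monomial (emb u') 1) := by
    intro u'
    rfl
  rw [Lam_map, map_add (Lam e b g r), map_sum, map_sum, Finset.sum_congr rfl fun i _ => h3 i,
    Finset.sum_const_zero, add_zero] at h2
  have h4 : ∀ u' : ι → Fin e, Lam e b g r (map (psi F) (G u' • monomial (emb u') 1)) =
      psi F (G u') * algebraMap (PowerSeries F) _ (Ys e b c r u') := by
    intro u'
    rw [smul_monomial, smul_eq_mul, mul_one, map_monomial, Lam_monomial, hY]
  rw [Finset.sum_congr rfl fun u' _ => h4 u', ← d_Lam0, ← hY] at h2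
  -- common denominators
  obtain ⟨q, hq⟩ := IsLocalization.exist_integer_multiples_of_finite
    (nonZeroDivisors (Polynomial F)) G
  choose γ hγ using hq
  refine ⟨q.1, γ, nonZeroDivisors.ne_zero q.2, ?_⟩
  apply IsFractionRing.injective (PowerSeries F) (FractionRing (PowerSeries F))
  rw [map_mul, h2, Finset.mul_sum, map_sum]
  refine Finset.sum_congr rfl fun u' _ => ?_
  rw [map_mul, ← mul_assoc, ← psi_apply, ← psi_apply, ← map_mul (psi F)]
  congr 2
  have := hγ u'
  rw [this, Algebra.smul_def]

/-- part Ode -/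
theorem h_Ode (hRd : S_Rd) (hR0 : S_R0) (hLM0 : S_LM0) (hNat : S_Nat) : S_Ode := by
  intro ι _ _ F _ _ e j b c he hb
  apply dfToODE
  rw [levdet]
  apply dfin_det
  intro r u
  rw [Matrix.submatrix_apply]
  refine dfin_of_system (fun u' : ι → Fin e => Ys e b c r.1 u') (fun u' => ?_) u.1
  obtain ⟨q, γ, hq, h⟩ := system hRd hR0 hLM0 hNat e he b c hb r.1 u'
  exact ⟨q, γ, hq, Finset.univ, h⟩

end Main

end Pool.Agent.H860.BK
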